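import Pool.Agent.helper29.JZ.Spec

/-!
# Row RE2: coordinates for both rulings with the curves `y = x^a` and `x y^b = 1`
-/

set_option autoImplicit false

open Finset Polynomial

namespace Pool.Agent.helper2.JZ

open Pool.Agent.helper29.JZ

theorem RE2_PA {h h' : ℕ} {M : Finset (Fin h × Fin h')} {z z' : Fin h × Fin h'} (hz : z ∈ PA M)
    (hz' : z' ∈ M) (e : z.1 = z'.1) : z = z' := by
  unfold PA at hz
  rw [Finset.mem_filter] at hz
  obtain ⟨h1, h2⟩ := hz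
  unfold col at h2
  obtain ⟨w, hw⟩ := Finset.card_eq_one.1 h2
  have h3 : z ∈ M.filter fun u => u.1 = z.1 := Finset.mem_filter.2 ⟨h1, rfl⟩
  have h4 : z' ∈ M.filter fun u => u.1 = z.1 := Finset.mem_filter.2 ⟨hz', e.symm⟩
  rw [hw, Finset.mem_singleton] at h3 h4
  rw [h3, h4]

theorem RE2_PB {h h' : ℕ} {M : Finset (Fin h × Fin h')} {z z' : Fin h × Fin h'} (hz : z ∈ PB M)
    (hz' : z' ∈ M) (e : z.2 = z'.2) : z = z' := by
  unfold PB at hz
  rw [Finset.mem_filter] at hz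
  obtain ⟨h1, h2⟩ := hz
  unfold row at h2
  obtain ⟨w, hw⟩ := Finset.card_eq_one.1 h2
  have h3 : z ∈ M.filter fun u => u.2 = z.2 := Finset.mem_filter.2 ⟨h1, rfl⟩
  have h4 : z' ∈ M.filter fun u => u.2 = z.2 := Finset.mem_filter.2 ⟨hz', e.symm⟩
  rw [hw, Finset.mem_singleton] at h3 h4
  rw [h3, h4]

theorem RE2_PA_sub {h h' : ℕ} {M : Finset (Fin h × Fin h')} {z : Fin h × Fin h'} (hz : z ∈ PA M) :
    z ∈ M := (Finset.mem_filter.1 hz).1

theorem RE2_PB_sub {h h' : ℕ} {M : Finset (Fin h × Fin h')} {z : Fin h × Fin h'} (hz : z ∈ PB M) :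
    z ∈ M := (Finset.mem_filter.1 hz).1

/-- A point of `M` in the row of a point of `PB M` is in `PB M`. -/
theorem RE2_PB_row {h h' : ℕ} {M : Finset (Fin h × Fin h')} {z z' : Fin h × Fin h'} (hz : z ∈ M)
    (hz' : z' ∈ PB M) (e : z.2 = z'.2) : z ∈ PB M := by
  have h1 := RE2_PB hz' hz e.symm
  rw [← h1]
  exact hz'

/-- A point of `M` in the column of a point of `PA M` is in `PA M`. -/
theorem RE2_PA_col {h h' : ℕ} {M : Finset (Fin h × Fin h')} {z z' : Fin h × Fin h'} (hz : z ∈ M)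
    (hz' : z' ∈ PA M) (e : z.1 = z'.1) : z ∈ PA M := by
  have h1 := RE2_PA hz' hz e.symm
  rw [← h1]
  exact hz'

theorem RE2_xex {h h' : ℕ} (M : Finset (Fin h × Fin h')) (b : ℕ) (ω : Fin h × Fin h' → ℂ)
    (ρ : Fin h → ℂ) : ∃ x : Fin h → ℂ,
      (∀ k m, (k, m) ∈ PA M → (k, m) ∈ PB M → x k = ω (k, m)) ∧
      (∀ k m, (k, m) ∈ PA M → (k, m) ∉ PB M → x k = ((m : ℕ) + 2 : ℝ) * ρ k) ∧
      (∀ k, (∀ m, (k, m) ∉ PA M) → x k = ((((k : ℕ) + 5 / 2 : ℝ) ^ b)⁻¹ : ℝ)) := by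
  classical
  refine ⟨fun k => if hk : ∃ m, (k, m) ∈ PA M then
    (if (k, hk.choose) ∈ PB M then ω (k, hk.choose) else ((hk.choose : ℕ) + 2 : ℝ) * ρ k)
    else ((((k : ℕ) + 5 / 2 : ℝ) ^ b)⁻¹ : ℝ), ?_, ?_, ?_⟩
  · intro k m hA hB
    have hk : ∃ m, (k, m) ∈ PA M := ⟨m, hA⟩
    have e : hk.choose = m := by
      have h1 := RE2_PA hk.choose_spec (RE2_PA_sub hA) rfl
      exact (Prod.mk.inj h1).2
    simp only [dif_pos hk]
    rw [if_pos (by rw [e]; exact hB), e]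
  · intro k m hA hB
    have hk : ∃ m, (k, m) ∈ PA M := ⟨m, hA⟩
    have e : hk.choose = m := by
      have h1 := RE2_PA hk.choose_spec (RE2_PA_sub hA) rfl
      exact (Prod.mk.inj h1).2
    simp only [dif_pos hk]
    rw [if_neg (by rw [e]; exact hB), e]
  · intro k hk
    have hk' : ¬ ∃ m, (k, m) ∈ PA M := fun ⟨m, hm⟩ => hk m hm
    simp only [dif_neg hk']

theorem RE2_yex {h h' : ℕ} (M : Finset (Fin h × Fin h')) (a : ℕ) (ω : Fin h × Fin h' → ℂ)
    (ρ : Fin h' → ℂ) : ∃ y : Fin h' → ℂ,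
      (∀ k m, (k, m) ∈ PB M → (k, m) ∈ PA M → y m = ω (k, m) ^ a) ∧
      (∀ k m, (k, m) ∈ PB M → (k, m) ∉ PA M → y m = ((k : ℕ) + 5 / 2 : ℝ) * ρ m) ∧
      (∀ m, (∀ k, (k, m) ∉ PB M) → y m = ((((m : ℕ) + 2 : ℝ) ^ a : ℝ) : ℂ)) := by
  classical
  refine ⟨fun m => if hk : ∃ k, (k, m) ∈ PB M then
    (if (hk.choose, m) ∈ PA M then ω (hk.choose, m) ^ a else ((hk.choose : ℕ) + 5 / 2 : ℝ) * ρ m)
    else ((((m : ℕ) + 2 : ℝ) ^ a : ℝ) : ℂ), ?_, ?_, ?_⟩
  · intro k m hB hA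
    have hk : ∃ k, (k, m) ∈ PB M := ⟨k, hB⟩
    have e : hk.choose = k := by
      have h1 := RE2_PB hk.choose_spec (RE2_PB_sub hB) rfl
      exact (Prod.mk.inj h1).1
    simp only [dif_pos hk]
    rw [if_pos (by rw [e]; exact hA), e]
  · intro k m hB hA
    have hk : ∃ k, (k, m) ∈ PB M := ⟨k, hB⟩
    have e : hk.choose = k := by
      have h1 := RE2_PB hk.choose_spec (RE2_PB_sub hB) rfl
      exact (Prod.mk.inj h1).1
    simp only [dif_pos hk]
    rw [if_neg (by rw [e]; exact hA), e]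
  · intro m hk
    have hk' : ¬ ∃ k, (k, m) ∈ PB M := fun ⟨k, hk2⟩ => hk k hk2
    simp only [dif_neg hk']

theorem RE2_Cv {h h' : ℕ} (x : Fin h → ℂ) (y : Fin h' → ℂ) (M : Finset (Fin h × Fin h'))
    (P Q : ℂ[X]) (a : ℕ) (hc : IsCoprime P Q) (hd : max P.natDegree Q.natDegree = a)
    (ha : 2 * a ≤ (PA M).card) (hon : ∀ z ∈ PA M, P.eval (x z.1) * y z.2 = Q.eval (x z.1)) :
    Cv x y M P Q a := by
  refine ⟨hc, ?_, ha⟩
  have e : HC x y M P Q = PA M := by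
    unfold HC
    exact Finset.filter_true_of_mem hon
  rw [e, hd]

theorem jz_RE2 : RE2_stmt := by
  intro hROT hOMG hTRA hTRB h h' M a b ha hmA haA hb hmB hbB hcard
  obtain ⟨-, -, -, hPAt, hPBt, -, -⟩ := hTRA h h' M
  obtain ⟨hcA, hcB, hmAt, -, -, -, -, -⟩ := hTRB hTRA h h' M
  -- membership in `PA (tr M)`
  have hmem : ∀ k m, (m, k) ∈ PA (tr M) ↔ (k, m) ∈ PB M := by
    intro k m
    rw [hPAt, Finset.mem_image]
    constructor
    · rintro ⟨⟨k', m'⟩, h1, h2⟩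
      obtain ⟨e1, e2⟩ := Prod.mk.inj h2
      change m' = m at e1
      change k' = k at e2
      rw [← e1, ← e2]
      exact h1
    · intro h1
      exact ⟨(k, m), h1, rfl⟩
  obtain ⟨ρ, hρ1, hρ2⟩ := hROT h h' a (PA M) ha (fun z hz z' hz' e => RE2_PA hz (RE2_PA_sub hz') e)
    (fun m => le_trans (Finset.le_sup (f := fun m : Fin h' => ((PA M).filter fun z => z.2 = m).card)
      (Finset.mem_univ m)) hmA)
  obtain ⟨ρ', hρ1', hρ2'⟩ := hROT h' h b (PA (tr M)) hb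
    (fun z hz z' hz' e => RE2_PA hz (RE2_PA_sub hz') e)
    (fun m => le_trans (Finset.le_sup (f := fun m : Fin h => ((PA (tr M)).filter fun z => z.2 = m).card)
      (Finset.mem_univ m)) (by
        have h1 : mA (tr M) ≤ b := by rw [hmAt]; exact hmB
        exact h1))
  obtain ⟨ω, hω1, hω2, hω3⟩ := hOMG h h' a b (PA M ∩ PB M) hcard
  obtain ⟨x, hx1, hx2, hx3⟩ := RE2_xex M b ω ρ
  obtain ⟨y, hy1, hy2, hy3⟩ := RE2_yex M a ω ρ'
  have hωn : ∀ z, ‖ω z‖ = 1 := fun z => Complex.norm_eq_one_of_pow_eq_one (hω1 z) (Nat.succ_ne_zero _)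
  have hρn : ∀ k, ‖ρ k‖ = 1 := fun k => Complex.norm_eq_one_of_pow_eq_one (hρ1 k) (by omega)
  have hρn' : ∀ k, ‖ρ' k‖ = 1 := fun k => Complex.norm_eq_one_of_pow_eq_one (hρ1' k) (by omega)
  -- classification
  have hxc : ∀ k, (∃ m, (k, m) ∈ PA M ∧ (k, m) ∈ PB M ∧ x k = ω (k, m) ∧ ‖x k‖ = 1) ∨
      (∃ m, (k, m) ∈ PA M ∧ x k = ((m : ℕ) + 2 : ℝ) * ρ k ∧ ‖x k‖ = (m : ℕ) + 2) ∨
      (‖x k‖ = (((k : ℕ) + 5 / 2 : ℝ) ^ b)⁻¹ ∧ ‖x k‖ < 1) := by
    intro k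
    by_cases hk : ∃ m, (k, m) ∈ PA M
    · obtain ⟨m, hm⟩ := hk
      by_cases hB : (k, m) ∈ PB M
      · left
        exact ⟨m, hm, hB, hx1 k m hm hB, by rw [hx1 k m hm hB]; exact hωn _⟩
      · right; left
        refine ⟨m, hm, hx2 k m hm hB, ?_⟩
        rw [hx2 k m hm hB, norm_mul, hρn, mul_one, Complex.norm_real, Real.norm_of_nonneg (by positivity)]
    · right; right
      have h1 := hx3 k (fun m hm => hk ⟨m, hm⟩)
      have h2 : ‖x k‖ = (((k : ℕ) + 5 / 2 : ℝ) ^ b)⁻¹ := by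
        rw [h1, Complex.norm_real, Real.norm_of_nonneg (by positivity)]
      refine ⟨h2, ?_⟩
      rw [h2]
      apply inv_lt_one_of_one_lt₀
      apply one_lt_pow₀ _ (by omega)
      have := Nat.cast_nonneg (α := ℝ) (k : ℕ)
      linarith
  have hyc : ∀ m, (∃ k, (k, m) ∈ PA M ∧ (k, m) ∈ PB M ∧ y m = ω (k, m) ^ a ∧ ‖y m‖ = 1) ∨
      (∃ k, (k, m) ∈ PB M ∧ y m = ((k : ℕ) + 5 / 2 : ℝ) * ρ' m ∧ ‖y m‖ = (k : ℕ) + 5 / 2) ∨
      (‖y m‖ = (((m : ℕ) + 2) ^ a : ℕ) ∧ 2 ≤ ‖y m‖) := by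
    intro m
    by_cases hk : ∃ k, (k, m) ∈ PB M
    · obtain ⟨k, hB⟩ := hk
      by_cases hA : (k, m) ∈ PA M
      · left
        refine ⟨k, hA, hB, hy1 k m hB hA, ?_⟩
        rw [hy1 k m hB hA, norm_pow, hωn, one_pow]
      · right; left
        refine ⟨k, hB, hy2 k m hB hA, ?_⟩
        rw [hy2 k m hB hA, norm_mul, hρn', mul_one, Complex.norm_real, Real.norm_of_nonneg (by positivity)]
    · right; right
      have h1 := hy3 m (fun k hm => hk ⟨k, hm⟩)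
      have h2 : ‖y m‖ = ((m : ℕ) + 2 : ℝ) ^ a := by
        rw [h1, Complex.norm_real, Real.norm_of_nonneg (by positivity)]
      refine ⟨by rw [h2]; push_cast; rfl, ?_⟩
      rw [h2]
      have h3 : (2 : ℝ) ≤ (m : ℕ) + 2 := by
        have := Nat.cast_nonneg (α := ℝ) (m : ℕ)
        linarith
      calc (2 : ℝ) ≤ (m : ℕ) + 2 := h3
        _ = ((m : ℕ) + 2 : ℝ) ^ 1 := (pow_one _).symm
        _ ≤ ((m : ℕ) + 2 : ℝ) ^ a := pow_le_pow_right₀ (by linarith) ha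
  refine ⟨x, y, ?_, ?_, ?_, ?_⟩
  · -- `x` injective
    intro k k' e
    have en : ‖x k‖ = ‖x k'‖ := by rw [e]
    rcases hxc k with ⟨m, h1, h2, h3, h4⟩ | ⟨m, h1, h2, h3⟩ | ⟨h1, h2⟩ <;>
      rcases hxc k' with ⟨m', h1', h2', h3', h4'⟩ | ⟨m', h1', h2', h3'⟩ | ⟨h1', h2'⟩
    · have h5 := hω2 _ (Finset.mem_inter.2 ⟨h1, h2⟩) _ (Finset.mem_inter.2 ⟨h1', h2'⟩) (by
        rw [← h3, ← h3', e])
      exact (Prod.mk.inj h5).1
    · exfalso
      have := Nat.cast_nonneg (α := ℝ) (m' : ℕ)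
      linarith
    · exfalso
      linarith
    · exfalso
      have := Nat.cast_nonneg (α := ℝ) (m : ℕ)
      linarith
    · have h5 : (m : ℕ) = (m' : ℕ) := by
        have : ((m : ℕ) : ℝ) = ((m' : ℕ) : ℝ) := by linarith
        exact_mod_cast this
      have h6 : m = m' := Fin.ext h5
      subst h6
      have h7 : ρ k = ρ k' := by
        rw [h2, h2'] at e
        refine mul_left_cancel₀ ?_ e
        have h8 : ((m : ℕ) + 2 : ℝ) ≠ 0 := by positivity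
        exact_mod_cast h8
      have h8 := hρ2 _ h1 _ h1' rfl h7
      exact (Prod.mk.inj h8).1
    · exfalso
      have := Nat.cast_nonneg (α := ℝ) (m : ℕ)
      linarith
    · exfalso
      linarith
    · exfalso
      have := Nat.cast_nonneg (α := ℝ) (m' : ℕ)
      linarith
    · have h5 : (((k : ℕ) + 5 / 2 : ℝ) ^ b) = (((k' : ℕ) + 5 / 2 : ℝ) ^ b) := by
        have h6 : (((k : ℕ) + 5 / 2 : ℝ) ^ b)⁻¹ = (((k' : ℕ) + 5 / 2 : ℝ) ^ b)⁻¹ := by
          rw [← h1, ← h1', en]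
        exact inv_injective h6
      have h6 : ((k : ℕ) + 5 / 2 : ℝ) = ((k' : ℕ) + 5 / 2 : ℝ) :=
        (pow_left_inj₀ (by positivity) (by positivity) (by omega)).1 h5
      have h7 : ((k : ℕ) : ℝ) = ((k' : ℕ) : ℝ) := by linarith
      exact Fin.ext (by exact_mod_cast h7)
  · -- `y` injective
    intro m m' e
    have en : ‖y m‖ = ‖y m'‖ := by rw [e]
    have hhalf : ∀ (k n : ℕ), ((k : ℕ) + 5 / 2 : ℝ) ≠ (n : ℝ) := by
      intro k n h1
      have h2 : ((2 * k + 5 : ℕ) : ℝ) = ((2 * n : ℕ) : ℝ) := by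
        push_cast
        linarith
      have h3 : 2 * k + 5 = 2 * n := by exact_mod_cast h2
      omega
    rcases hyc m with ⟨k, h1, h2, h3, h4⟩ | ⟨k, h1, h2, h3⟩ | ⟨h1, h2⟩ <;>
      rcases hyc m' with ⟨k', h1', h2', h3', h4'⟩ | ⟨k', h1', h2', h3'⟩ | ⟨h1', h2'⟩
    · have h5 := hω3 _ (Finset.mem_inter.2 ⟨h1, h2⟩) _ (Finset.mem_inter.2 ⟨h1', h2'⟩) (by
        rw [← h3, ← h3', e])
      exact (Prod.mk.inj h5).2
    · exfalso
      have := Nat.cast_nonneg (α := ℝ) (k' : ℕ)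
      linarith
    · exfalso
      linarith
    · exfalso
      have := Nat.cast_nonneg (α := ℝ) (k : ℕ)
      linarith
    · have h5 : (k : ℕ) = (k' : ℕ) := by
        have : ((k : ℕ) : ℝ) = ((k' : ℕ) : ℝ) := by linarith
        exact_mod_cast this
      have h6 : k = k' := Fin.ext h5
      subst h6
      have h7 : ρ' m = ρ' m' := by
        rw [h2, h2'] at e
        refine mul_left_cancel₀ ?_ e
        have h8 : ((k : ℕ) + 5 / 2 : ℝ) ≠ 0 := by positivity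
        exact_mod_cast h8
      have h8 := hρ2' _ ((hmem k m).2 h1) _ ((hmem k m').2 h1') rfl h7
      exact (Prod.mk.inj h8).1
    · exfalso
      exact hhalf _ _ (by rw [← h3, en, h1'])
    · exfalso
      linarith
    · exfalso
      exact hhalf _ _ (by rw [← h3', ← en, h1])
    · have h5 : (((m : ℕ) + 2) ^ a : ℕ) = (((m' : ℕ) + 2) ^ a : ℕ) := by
        have h6 : ((((m : ℕ) + 2) ^ a : ℕ) : ℝ) = ((((m' : ℕ) + 2) ^ a : ℕ) : ℝ) := by
          rw [← h1, ← h1', en]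
        exact_mod_cast h6
      have h6 : (m : ℕ) + 2 = (m' : ℕ) + 2 := Nat.pow_left_injective (by omega) h5
      exact Fin.ext (by omega)
  · -- the first curve
    refine RE2_Cv x y M 1 (X ^ a) a isCoprime_one_left ?_ haA ?_
    · rw [natDegree_one, natDegree_X_pow]
      omega
    · rintro ⟨k, m⟩ hA
      rw [eval_one, one_mul, eval_pow, eval_X]
      by_cases hB : (k, m) ∈ PB M
      · rw [hy1 k m hB hA, hx1 k m hA hB]
      · have h1 : ∀ k', (k', m) ∉ PB M := by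
          intro k' hk'
          exact hB (RE2_PB_row (RE2_PA_sub hA) hk' rfl)
        rw [hy3 m h1, hx2 k m hA hB, mul_pow, hρ1, mul_one]
        push_cast
        rfl
  · -- the second curve
    refine RE2_Cv y x (tr M) (X ^ b) 1 b isCoprime_one_right ?_ ?_ ?_
    · rw [natDegree_one, natDegree_X_pow]
      omega
    · rw [hcA]; exact hbB
    · rintro ⟨m, k⟩ hB'
      have hB := (hmem k m).1 hB'
      rw [eval_one, eval_pow, eval_X]
      by_cases hA : (k, m) ∈ PA M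
      · rw [hy1 k m hB hA, hx1 k m hA hB, ← pow_mul, ← pow_succ]
        exact hω1 _
      · have h1 : ∀ m', (k, m') ∉ PA M := by
          intro m' hm'
          exact hA (RE2_PA_col (RE2_PB_sub hB) hm' rfl)
        rw [hy2 k m hB hA, hx3 k h1, mul_pow, hρ1', mul_one]
        have h2 : (((k : ℕ) + 5 / 2 : ℝ) ^ b) ≠ 0 := by positivity
        rw [← Complex.ofReal_pow, ← Complex.ofReal_mul, mul_inv_cancel₀ h2, Complex.ofReal_one]

end Pool.Agent.helper2.JZ
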